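import Pool.Agent.N102.FL.Final
import Pool.Agent.N531.FL.Sat
import Pool.Agent.N456.FL.Rank
import Pool.Agent.N40.FL.Piv
import Pool.Agent.N40.FL.Ech
import Pool.Agent.N40.FL.Fam
import Pool.Agent.N40.FL.Dim
import Pool.Agent.N954.FL.Lift
import Pool.Agent.N56.FL.Span
import Pool.Agent.N608.FL.Form

/-!
MP_b525bf_ag: resolution of singularities, in all dimensions and in all characteristics `p > 0`, of
affine varieties over a perfect field `k` whose function field `K` is built in the following way.

(a) `E 1, ..., E m` are linearly disjoint function fields of arbitrary surfaces over `k`.

(b) Over the compositum of the `E i` there are nonzero elements `z 1, ..., z s` with ARBITRARY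
linear relations over `k` between `1` and the powers `z t ^ (p ^ e t)`, where the exponents
`e t ≥ 0` are arbitrary (so the equations are not generically smooth in the `z t`, and no nondegeneracy
is assumed for them), and nonzero elements `x 1, ..., x n` with equations `G i (u, z, x) = 0`, which
are schön with respect to `x` (the `u b` are products of functions of the surfaces); there are no
other relations (the transcendence degree is as large as possible).

(c) Finally `K` is generated by elements `w j` such that all `w j ^ p - w j` are integral linear
combinations of arbitrary functions `f i ∈ E i` and of nondegenerate Laurent polynomials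
`F t (u, z, x)`, or all `w j ^ p` are linear combinations of products of functions on the surfaces (for
each surface only one of the factors is not a `p`-th power) and of such Laurent polynomials.

The variety is `Spec A`, where `A` is integral over a subalgebra generated by finitely many
products of elements of the `E i` and of powers of the `z t` and `x j`.

Example: components (not in coordinate hyperplanes, dominating the product of the surfaces) of the
systems `∑ j, c i j * (a j * x j ^ d j) ^ q j = b i` with `c i j, b i ∈ k`, `a j` functions on
surfaces, `q j` arbitrary powers of `p`, `p ∤ d j`, and their coverings `w ^ p - w = f 1 + ... + f m`,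
`w ^ p = g 1 * ... * g m` by arbitrary functions of the surfaces.

The proof combines the starting files of helper102's project FL (saturation of the system, and the
leading terms of linear relations with levels, by helpers 40, 56, 456, 531, 608, 954) with the models
of relative schön systems and of their coverings by helper214 and the `p`-th root towers by helper188.
-/

set_option autoImplicit false

open AlgebraicGeometry CategoryTheory Pool.Agent.TH214.SD Pool.Agent.W558 Pool.Agent.N102.FL

universe u

namespace Pool.Agent.Results.MP_b525bf_ag.FrobeniusLevels

/-- Let `k` be a perfect field of characteristic `p`, and let `K` be an extension of `k` with the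
following generators. `E 1, ..., E m` are linearly disjoint function fields of surfaces over `k`; the
nonzero elements `z 1, ..., z s` and `x 1, ..., x n` of `K` are the coordinates of a relative schön
system `G i ((u, z), x) = 0` over a system of linear relations between `1` and the powers
`z t ^ (p ^ e t)` (`IsLeveledSystem`; the `u b` are products of elements of the `E i`); and `K` is
generated by the `E i`, the `z t`, the `x j` and the roots `w j` of Artin-Schreier equations, or
`p`-th roots, of the elements described in `IsGeneratedBy`. Let `A` be a finitely generated
`k`-algebra with the fraction field `K` which is integral over the subalgebra generated by finitely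
many elements each of which is a product of elements of the `E i` and of (positive or negative)
powers of the `z t` and `x j`. Then the variety `Spec A` has a resolution of singularities. -/
theorem result (p : ℕ) [Fact p.Prime] (k K : Type u) [Field k] [PerfectField k] [CharP k p]
    [Field K] [Algebra k K] (m h s n q c r o a : ℕ) (E : Fin m → IntermediateField k K)
    (u : Fin h → K) (e : Fin s → ℕ) (z : Fin s → K) (x : Fin n → K)
    (G : Fin q → (Fin (h + s) ⊕ Fin n → ℤ) →₀ k) (f : ∀ i, E i) (g : Fin o → ∀ i, E i)
    (F : Fin a → (Fin (h + s) ⊕ Fin n → ℤ) →₀ k) (w : Fin r → K)
    (hB : IsLeveledSystem E p c u e z x G) (hK : IsGeneratedBy E p u z x G f g F w)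
    (A : Type u) [CommRing A] [IsDomain A] [Algebra k A] [Algebra.FiniteType k A] [Algebra A K]
    [IsScalarTower k A K] [IsFractionRing A K] (S : Finset A)
    (hS : ∀ b ∈ S, IsProduct E (Fin.append z x) (algebraMap A K b))
    (hA : ∀ b : A, IsIntegral (Algebra.adjoin k (S : Set A)) b) :
    IsResolvableVariety (X := Spec (CommRingCat.of A))
      (Spec.map (CommRingCat.ofHom (algebraMap k A))) :=
  resolvable (fun S _ v hv => models Pool.Agent.N531.FL.t_sat
    (Pool.Agent.N456.FL.t_rank Pool.Agent.N40.FL.t_piv Pool.Agent.N40.FL.t_ech
      Pool.Agent.N954.FL.t_lift Pool.Agent.N56.FL.t_span)
    Pool.Agent.N102.FL.t_form Pool.Agent.N40.FL.t_fam Pool.Agent.N40.FL.t_dim hB hK S v hv)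
    A S hS hA

end Pool.Agent.Results.MP_b525bf_ag.FrobeniusLevels
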