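import Pool.Agent.U197.GQ.E5

/-!
MP_b525bf_ag: resolution of singularities, in all dimensions and over arbitrary fields of
characteristic `p > 0`, of the quotients `X / D` of smooth affine varieties `X`, which are the
spectra of `B`, by `p`-closed vector fields `D` such that `D` is nondegenerate at each of its
(closed) zeros `P` with respect to some coordinates and weights. The coordinates, the weights and
the number `l` may depend on the point.

The quotient `X / D` is the spectrum of the ring of the functions `b` with `D b = 0`; it has the
topological space of `X`, and it is singular at most at the zeros of `D`. For example, `X / D` is the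
quotient of `X` by an action of the group scheme `α_p`, if `D ^ p = 0`.

The local condition is as follows. Let `O` be the local ring of the point, `y_1, ..., y_n` étale
coordinates at the point with weights `w_i ≥ 0`, and let `F_d` be the ideal generated by the
monomials of weight at least `d`. For some `l > 0`, `D` maps `O` to `F_l` and `y_i` to
`F_(w_i + l)`, the locus of zeros is given by the coordinates of positive weight
(set-theoretically), and the leading form of `D`, which is homogeneous of degree `l` on the graded
ring of the filtration, has no zeros outside the zero section (the forms generate an ideal which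
contains a power of each coordinate of positive weight).

For isolated `k`-rational zeros the condition is about the parameters only: `y_i` are parameters of
positive weight, `D y_i` lies in `F_(w_i + l)`, and the leading forms of `D y_i` have no common
zero. For example, `D = ∑ u_i y_i ^ (e_i + 1) ∂ / ∂ y_i` with units `u_i` and arbitrary `e_i ≥ 1`,
if this is `p`-closed (`D ^ p = 0`, if `u_i = 1` and all `e_i` are prime to `p`).

The proof. The local conditions are extended from the local rings to affine neighbourhoods
(`spreadD`). By the uniqueness of nondegenerate weighted centres (theorem `le_ordI` in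
`Pool.Agent.U197.SF.D2`) the local centres glue to a filtration of `B` (`gluedD`, `GF_rwcD`,
`GF_leadD`), which is again a regular weighted centre with a nondegenerate leading form. The
restriction of the filtration to the ring of constants is good in the sense of the library on
weighted blowings-up (helpers 519 and 177), which gives the resolution.
-/

set_option autoImplicit false

open AlgebraicGeometry CategoryTheory Pool.Agent.H920R2

namespace Pool.Agent.Results.MP_b525bf_ag.PClosedVectorFields

section affine

variable {k B : Type} [Field k] [CommRing B] [IsDomain B] [Algebra k B]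

/-- The fraction `b / 1`. -/
noncomputable abbrev fr (b : B) : FractionRing B := algebraMap B (FractionRing B) b

/-- The rational vector field `D` (a derivation of the field of fractions of `B`) is regular: it maps
functions to functions. -/
def IsRegular (D : Derivation k (FractionRing B) (FractionRing B)) : Prop :=
  ∀ b : B, ∃ c : B, D (fr b) = fr c

/-- The point `P` is a zero of the vector field `D`: all values of `D` on functions vanish at `P`. -/
def IsZero (D : Derivation k (FractionRing B) (FractionRing B)) (P : Ideal B) : Prop :=
  ∀ b c : B, D (fr b) = fr c → c ∈ P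

/-- The functions `b` with `D b = 0`. -/
def constants (D : Derivation k (FractionRing B) (FractionRing B)) : Subalgebra k B where
  carrier := {b | D (fr b) = 0}
  mul_mem' := by
    intro a b ha hb
    change D (fr a) = 0 at ha
    change D (fr b) = 0 at hb
    change D (fr (a * b)) = 0
    rw [fr, map_mul, Derivation.leibniz, ha, hb, smul_zero, smul_zero, add_zero]
  add_mem' := by
    intro a b ha hb
    change D (fr a) = 0 at ha
    change D (fr b) = 0 at hb
    change D (fr (a + b)) = 0
    rw [fr, map_add, map_add, ha, hb, add_zero]
  algebraMap_mem' := by
    intro r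
    change D (fr (algebraMap k B r)) = 0
    rw [fr, ← IsScalarTower.algebraMap_apply k B (FractionRing B), Derivation.map_algebraMap]

/-- The local ring of the spectrum of `B` at the point `P`, inside the field of fractions of `B`:
the fractions `s / t` where `t` does not vanish at `P`. -/
noncomputable def localRing (k : Type) {B : Type} [Field k] [CommRing B] [IsDomain B] [Algebra k B]
    (P : Ideal B) [P.IsPrime] : Subalgebra k (FractionRing B) where
  carrier := {y | ∃ s t : B, t ∉ P ∧ y = fr s / fr t}
  mul_mem' := fun ha hb => (Pool.Agent.U197.GQ.lrA k P).mul_mem' ha hb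
  add_mem' := fun ha hb => (Pool.Agent.U197.GQ.lrA k P).add_mem' ha hb
  algebraMap_mem' := (Pool.Agent.U197.GQ.lrA k P).algebraMap_mem'

/-- The quotient of the affine variety by the vector field. -/
noncomputable def quot (D : Derivation k (FractionRing B) (FractionRing B)) : Scheme.{0} :=
  Spec (CommRingCat.of (constants D))

/-- The structure morphism of the quotient. -/
noncomputable def quotStr (D : Derivation k (FractionRing B) (FractionRing B)) :
    quot D ⟶ Spec (CommRingCat.of k) :=
  Spec.map (CommRingCat.ofHom (algebraMap k (constants D)))

end affine

section weights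

/-- The ideal generated by the monomials of weight at least `d`. -/
def weightIdeal {O : Type} [CommRing O] {n : ℕ} (y : Fin n → O) (w : Fin n → ℕ) (d : ℕ) : Ideal O :=
  Ideal.span {c | ∃ α : Fin n → ℕ, d ≤ ∑ i, α i * w i ∧ c = ∏ i, y i ^ α i}

variable {k K : Type} [Field k] [Field K] [Algebra k K]

/-- The ideal of `O` which is generated by the values in `O` of the map `δ` on `O`; for a vector
field `δ` this is the ideal of the scheme of zeros. -/
def zeroIdeal (O : Subalgebra k K) (δ : K → K) : Ideal O :=
  Ideal.span {c | ∃ a : O, (c : K) = δ a}

/-- The map `δ` is nondegenerate with respect to the étale coordinates `y i` of `O`, the weights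
`w i` and the number `l`. -/
structure Nondegenerate (O : Subalgebra k K) (δ : K → K) {n : ℕ} (y : Fin n → O) (w : Fin n → ℕ)
    (l : ℕ) : Prop where
  /-- The number `l` is positive. -/
  pos : 0 < l
  /-- The differentials of the coordinates are a basis of the module of differentials. -/
  coordinates : ∃ b : Module.Basis (Fin n) O (Ω[O⁄k]), ∀ i, b i = KaehlerDifferential.D k O (y i)
  /-- All values of `δ` have the order at least `l`. -/
  order : ∀ a c : O, (c : K) = δ a → c ∈ weightIdeal y w l
  /-- The map `δ` raises the order of the coordinates by `l`. -/
  order_coordinate : ∀ i, ∀ c : O, (c : K) = δ (y i) → c ∈ weightIdeal y w (w i + l)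
  /-- The coordinates of positive weight vanish at the zeros of `δ`. -/
  zeros : ∀ i, 0 < w i → y i ∈ (zeroIdeal O δ).radical
  /-- The leading form of `δ` has no zeros outside the zero section: a power of every coordinate of
  positive weight is a combination of leading forms of values of `δ`, up to terms of higher
  weight. -/
  leading : ∀ i, 0 < w i → ∃ N : ℕ, y i ^ N ∈ weightIdeal y w (N * w i + 1) ⊔
    Ideal.span {c | ∃ e, ∃ a ∈ weightIdeal y w e, ∃ b ∈ weightIdeal y w (N * w i - (e + l)),
      ∃ z : O, (z : K) = δ a ∧ c = b * z}

/-- The local ring `O` has the residue field `k`, and the elements `y i` are parameters of `O`: they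
generate the maximal ideal `m` and they are linearly independent modulo the square of `m`. -/
structure Parameters (O : Subalgebra k K) {n : ℕ} (y : Fin n → O) : Prop where
  /-- The ring is local. -/
  isLocalRing : IsLocalRing O
  /-- The residue field is `k`. -/
  rational : ∀ a : O, ∃ c : k, a - algebraMap k O c ∈ IsLocalRing.maximalIdeal O
  /-- The parameters generate the maximal ideal. -/
  generate : Ideal.span (Set.range y) = IsLocalRing.maximalIdeal O
  /-- The parameters are independent. -/
  independent : ∀ c : Fin n → k, ∑ i, c i • y i ∈ IsLocalRing.maximalIdeal O ^ 2 → c = 0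

/-- The isolated zero of `δ` at a rational point with the parameters `y i` is nondegenerate with
respect to the weights `w i` and the number `l`. -/
structure IsolatedNondegenerate (O : Subalgebra k K) (δ : K → K) {n : ℕ} (y : Fin n → O)
    (w : Fin n → ℕ) (l : ℕ) : Prop where
  /-- The number `l` is positive. -/
  pos : 0 < l
  /-- The weights are positive. -/
  weight_pos : ∀ i, 0 < w i
  /-- The elements `y i` are parameters at a rational point. -/
  parameters : Parameters O y
  /-- The order of `δ (y i)` is at least `w i + l`. -/
  order : ∀ i, ∀ c : O, (c : K) = δ (y i) → c ∈ weightIdeal y w (w i + l)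
  /-- The leading forms of the elements `δ (y i)` have no common zeros. -/
  leading : ∀ i, ∃ N : ℕ, y i ^ N ∈ weightIdeal y w (N * w i + 1) ⊔
    Ideal.span {c | ∃ j, ∃ b ∈ weightIdeal y w (N * w i - (w j + l)),
      ∃ z : O, (z : K) = δ (y j) ∧ c = b * z}

end weights

section conversion

open Pool.Agent.U197.SF

variable {k K : Type} [Field k] [Field K] [Algebra k K] {O : Subalgebra k K} {δ : K → K}
  {n : ℕ} {y : Fin n → O} {w : Fin n → ℕ} {l : ℕ}

lemma ndk_of_nondegenerate (hδ : ∀ a ∈ O, δ a ∈ O) (h : Nondegenerate O δ y w l) :
    NDk (fun i => (y i : K)) w δ l O := by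
  refine ndk_of_ring hδ y w (fun a => h.order a _ rfl) (fun i => h.order_coordinate i _ rfl)
    h.zeros (fun i hi => ?_)
  obtain ⟨N, hN⟩ := h.leading i hi
  refine ⟨N, SetLike.le_def.1 (sup_le le_sup_left (le_trans (Ideal.span_mono ?_) le_sup_right)) hN⟩
  rintro c ⟨e, a, ha, b, hb, z, hz, rfl⟩
  refine ⟨e, a, ha, b, hb, ?_⟩
  congr 1
  exact Subtype.ext hz

lemma ndk_of_isolated {D : Derivation k K K} (hD : ∀ x ∈ O, D x ∈ O) [IsNoetherianRing O]
    (h : IsolatedNondegenerate O (fun a => D a) y w l) :
    NDk (fun i => (y i : K)) w (fun a => D a) l O := by
  have _ := h.parameters.isLocalRing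
  refine Pool.Agent.U197.GQ.ndk_isoD hD y w h.pos h.weight_pos h.parameters.rational
    h.parameters.generate (fun i => h.order i _ rfl) (fun i => ?_)
  obtain ⟨N, hN⟩ := h.leading i
  refine ⟨N, SetLike.le_def.1 (sup_le le_sup_left (le_trans (Ideal.span_mono ?_) le_sup_right)) hN⟩
  rintro c ⟨j, b, hb, z, hz, rfl⟩
  refine ⟨j, b, hb, ?_⟩
  congr 1
  exact Subtype.ext hz

end conversion

/-- Let `p` be a prime, `k` a field of characteristic `p`, and let `B` be the ring of functions of a
smooth affine variety over `k`. Let `D` be a nonzero `p`-closed vector field on this variety, such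
that at every closed zero `P` of `D` the vector field is nondegenerate, or has a nondegenerate
isolated zero, with respect to some coordinates `y`, weights `w` and a number `l`. Then the quotient
by the vector field, which is the spectrum of the ring of constants, is a variety and has a
resolution of singularities. -/
theorem result (p : ℕ) [Fact p.Prime] (k : Type) [Field k] [CharP k p]
    (B : Type) [CommRing B] [IsDomain B] [Algebra k B] [Algebra.Smooth k B]
    (D : Derivation k (FractionRing B) (FractionRing B)) (hreg : IsRegular D) (hD : D ≠ 0)
    (hcl : ∃ c : FractionRing B, ∀ x, D^[p] x = c * D x)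
    (hloc : ∀ (P : Ideal B) [P.IsMaximal], IsZero D P →
      ∃ (n : ℕ) (y : Fin n → localRing k P) (w : Fin n → ℕ) (l : ℕ),
        Nondegenerate (localRing k P) (fun a => D a) y w l ∨
        IsolatedNondegenerate (localRing k P) (fun a => D a) y w l) :
    IsVariety (quotStr D) ∧
    ∃ (Y : Scheme.{0}) (π : Y ⟶ quot D),
      AlgebraicGeometry.IsIntegral Y ∧ AlgebraicGeometry.IsProper π ∧
      AlgebraicGeometry.Smooth (π ≫ quotStr D) ∧
      ∃ U : (quot D).Opens, Dense (U : Set (quot D)) ∧ IsIso (π ∣_ U) := by
  have hpk : (p : k) = 0 := CharP.cast_eq_zero k p
  refine Pool.Agent.U197.GQ.resVF (E := D) hreg Fact.out hpk hD hcl (fun P hP hz => ?_)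
    (constants D) fun _ => Iff.rfl
  obtain ⟨n, y, w, l, h1⟩ := hloc P hz
  have hDO : ∀ a ∈ localRing k P, D a ∈ localRing k P :=
    Pool.Agent.U197.GQ.der_lrA (E := D) hreg (P := P)
  have hfam := Pool.Agent.U197.GQ.chartFamA (k := k) (P := P) (σ := AlgEquiv.refl)
  obtain ⟨hs1, hs2, hs3⟩ := hfam.smooth
  rcases h1 with h1 | h1
  · exact ⟨n, fun i => (y i : FractionRing B), w, l, fun i => (y i).2, h1.pos,
      h1.coordinates, ndk_of_nondegenerate hDO h1⟩
  · have hs1' : Algebra.FormallySmooth k (localRing k P) := hs1
    have hs2' : Algebra.EssFiniteType k (localRing k P) := hs2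
    have hs3' : IsNoetherianRing (localRing k P) := hs3
    have hb1 := @Pool.Agent.U197.SF.basis_of_params k (localRing k P) _ _
      h1.parameters.isLocalRing _ hs1' hs2' n y h1.parameters.rational
      h1.parameters.generate h1.parameters.independent
    exact ⟨n, fun i => (y i : FractionRing B), w, l, fun i => (y i).2, h1.pos, hb1,
      ndk_of_isolated hDO h1⟩

end Pool.Agent.Results.MP_b525bf_ag.PClosedVectorFields
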