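import Pool.Agent.U186.DropMinors

/-!
MP_b525bf_ag: resolution of all irreducible components of the loci where the rank of an
`a × b`-matrix `M + ∑ e, t e ^ m e • u e ⊗ v e` drops, in affine spaces over algebraically closed
(or perfect) fields of characteristic `p` and over affine surfaces, for `m e` prime to `p`. The
components can have any codimension at most `|a - b| + 1`, and there is no assumption on the
codimension. For `m e = 1` the class contains the degeneracy loci of maximal minors of the sparse
generic matrices (whose entries are different variables, zeros or constants), of the matrices
`(M | diag (t))`, and of the weighted incidence matrices of graphs and matroids. The case `a = b` of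
hypersurfaces is `MP_19ffc6_ag.RankOneDeterminants`.

The proof. Let `b ≤ a`, and let `x e = t e ^ m e` be the coordinates of the generic point of the
component.
1. The ideal `P` of a component with `m e = 1` is a minimal prime over the ideal of the minors. If
two independent vectors were in the kernel at the generic point, then at all points obtained by
changing one coordinate `x e` there would be a kernel vector, so that `P` would be stable under all
translations, and zero. So the kernel is a line, generated by `w` with `w i₀ = 1`.
2. The elements `w j`, `x e * (v e ⬝ w)` satisfy the linear relations `M w + ∑ y e • u e = 0`; the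
generic solution of all their linear relations gives a point of the locus which specializes to the
generic point of the component, so it is the generic point: there are no relations but linear ones.
3. By going down for the integral extension `X e ↦ X e ^ m e` the case of arbitrary `m e` is
reduced to this.
4. So `t e ^ m e` is a quotient of linear forms, with a complete system of relations, and the
theorem on products of linear forms (starting file `MP_b525bf_ag.ProductsOfLinearForms`) applies.
-/

set_option autoImplicit false

open AlgebraicGeometry CategoryTheory Pool.Agent.W558 MvPolynomial

universe u

namespace Pool.Agent.Results.MP_b525bf_ag.RankDropLoci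

/-- The `a × b` matrix `M + ∑ e, t e ^ m e • u e ⊗ v e` over the polynomial ring over `R` in the
variables `t 0, ..., t (N - 1)`. -/
noncomputable def pencil {R : Type u} [CommRing R] {a b N : ℕ} (M : Matrix (Fin a) (Fin b) R)
    (u : Fin N → Fin a → R) (v : Fin N → Fin b → R) (m : Fin N → ℕ) :
    Matrix (Fin a) (Fin b) (MvPolynomial (Fin N) R) :=
  Matrix.of fun i j => C (M i j) + ∑ e, C (u e i * v e j) * X e ^ m e

/-- The ideal generated by the minors of maximal size `min a b`, the determinants of the submatrices
with `min a b` rows and columns. Its zeros are the points at which the rank is less than
`min a b`. -/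
noncomputable def maximalMinors {S : Type u} [CommRing S] {a b : ℕ}
    (A : Matrix (Fin a) (Fin b) S) : Ideal S :=
  Ideal.span (Set.range fun q : (Fin (min a b) → Fin a) × (Fin (min a b) → Fin b) =>
    (A.submatrix q.1 q.2).det)

/-- Let `k` be a perfect field of characteristic `p`, and let `R` be a finitely generated
`k`-algebra, a domain with the field of fractions `E`. Suppose that `R = E = k`, or that `E` is the
function field of a smooth projective surface over `k` (`HasModel`), or that `E` has log smooth
projective models (`HasLogModels`). Let `M` be an `a × b` matrix over `R`, let `u e`, `v e` be
vectors over `R` of lengths `a` and `b`, and `m e` integers prime to `p`, such that the matrix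
`M + ∑ e, t e ^ m e • u e ⊗ v e` over the polynomial ring `R[t 0, ..., t (N - 1)]` has the maximal
rank `min a b`. Then every irreducible component of the closed subset of `Spec R × 𝔸^N` at which
its rank is less than `min a b`, which dominates `Spec R` (this is no condition if `R = k`), is a
variety over `k` which has a resolution of singularities. -/
theorem result (p : ℕ) [Fact p.Prime] (k R E : Type u) [Field k] [PerfectField k] [CharP k p]
    [CommRing R] [IsDomain R] [Algebra k R] [Algebra.FiniteType k R] [Field E] [Algebra k E]
    [Algebra R E] [IsScalarTower k R E] [IsFractionRing R E]
    (hE : Function.Surjective (algebraMap k E) ∨ (Algebra.trdeg k E = 2 ∧ HasModel k E) ∨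
      HasLogModels k E)
    {a b N : ℕ} (M : Matrix (Fin a) (Fin b) R) (u : Fin N → Fin a → R) (v : Fin N → Fin b → R)
    (m : Fin N → ℕ) (hm : ∀ e, ¬ p ∣ m e) (h0 : maximalMinors (pencil M u v m) ≠ ⊥)
    (P : Ideal (MvPolynomial (Fin N) R)) (hP : P ∈ (maximalMinors (pencil M u v m)).minimalPrimes)
    (hPR : P.comap (C : R →+* MvPolynomial (Fin N) R) = ⊥) :
    IsResolvableVariety (X := Spec (CommRingCat.of (MvPolynomial (Fin N) R ⧸ P)))
      (Spec.map (CommRingCat.ofHom (algebraMap k (MvPolynomial (Fin N) R ⧸ P)))) :=
  Pool.Agent.U186.RD.drop_res p k R E hE M u v m hm h0 P hP hPR

end Pool.Agent.Results.MP_b525bf_ag.RankDropLoci
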