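import Pool.Agent.U197.GQ.A4

/-!
MP_b525bf_ag: resolution of singularities, in all dimensions, over perfect (in particular,
algebraically closed) fields of characteristic `p > 0`, of the quotients `X / G` of smooth affine
varieties `X`, which are the spectra of `B`, by finite groups `G`, which may be nonabelian, such
that

* the inertia group of every closed point `P` of `X` has the order `1` or `p`,
* if the order is `p`, then `g - 1` is nondegenerate at `P` with respect to some coordinates and
  weights, for the elements `g ≠ 1` of the inertia group. The coordinates, the weights and the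
  number `l` may depend on the point.

The local condition is as follows. Let `O` be the local ring of the point, `y_1, ..., y_n` étale
coordinates at the point with weights `w_i ≥ 0`, and let `F_d` be the ideal generated by the
monomials of weight at least `d`. For some `l > 0`, `g - 1` maps `O` to `F_l` and `y_i` to
`F_(w_i + l)`, the fixed locus is given by the coordinates of positive weight (set-theoretically),
and the leading form of `g - 1`, which is homogeneous of degree `l` on the graded ring of the
filtration, has no zeros outside the zero section (the forms generate an ideal which contains a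
power of each coordinate of positive weight).

For isolated `k`-rational fixed points the condition is about the parameters only: `y_i` are
parameters of positive weight, `g y_i - y_i` lies in `F_(w_i + l)`, and the leading forms of
`g y_i - y_i` have no common zero. For example, `g y_i = y_i + u_i y_i ^ (e_i + 1)` with units
`u_i` and arbitrary `e_i ≥ 1`.

The proof. The local conditions are extended from the local rings to invariant affine
neighbourhoods. By the uniqueness of nondegenerate weighted centres (theorem `le_ordI` in
`Pool.Agent.U197.SF.D2`) the local centres of each element `g` of order `p` glue to a filtration of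
`B`, which is again a regular weighted centre with a nondegenerate leading form (`gluedA`,
`GF_rwc`, `GF_lead`). The elements of order `p` of the group permute their centres, and the
intersection of all these filtrations is a regular weighted centre which is stable under `G`
(`SigFam.rwc`, `SigFam.loc`). The ring of invariants of its extended Rees algebra is smooth after
the tame part is taken away (`mb_of_centre`), and its quotient by the multiplicative group is
resolved by the toroidal part of the library (helpers 920, 519 and 98).
-/

set_option autoImplicit false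

open AlgebraicGeometry CategoryTheory Pool.Agent.H920R2

namespace Pool.Agent.Results.MP_b525bf_ag.WildInertiaAffine

section affine

variable {k B : Type} [Field k] [CommRing B] [Algebra k B] {G : Type} [Group G]

/-- The elements which are fixed by the group. -/
def invariants (ρ : G →* (B ≃ₐ[k] B)) : Subalgebra k B where
  carrier := {b | ∀ g, ρ g b = b}
  mul_mem' := fun ha hb g => by rw [map_mul, ha g, hb g]
  add_mem' := fun ha hb g => by rw [map_add, ha g, hb g]
  algebraMap_mem' := fun c g => (ρ g).commutes c

/-- The inertia group of the point `P` of the spectrum of `B`: the elements of the group which fix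
the point and its residue field. -/
def inertia (ρ : G →* (B ≃ₐ[k] B)) (P : Ideal B) : Subgroup G where
  carrier := {g | ∀ b, ρ g b - b ∈ P}
  mul_mem' := (Pool.Agent.U197.GQ.InS ρ P).mul_mem'
  one_mem' := (Pool.Agent.U197.GQ.InS ρ P).one_mem'
  inv_mem' := (Pool.Agent.U197.GQ.InS ρ P).inv_mem'

variable [IsDomain B]

/-- The fraction `b / 1`. -/
noncomputable abbrev fr (b : B) : FractionRing B := algebraMap B (FractionRing B) b

/-- The local ring of the spectrum of `B` at the point `P`, inside the field of fractions of `B`:
the fractions `s / t` where `t` does not vanish at `P`. -/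
noncomputable def localRing (k : Type) {B : Type} [Field k] [CommRing B] [IsDomain B] [Algebra k B]
    (P : Ideal B) [P.IsPrime] : Subalgebra k (FractionRing B) where
  carrier := {y | ∃ s t : B, t ∉ P ∧ y = fr s / fr t}
  mul_mem' := fun ha hb => (Pool.Agent.U197.GQ.lrA k P).mul_mem' ha hb
  add_mem' := fun ha hb => (Pool.Agent.U197.GQ.lrA k P).add_mem' ha hb
  algebraMap_mem' := (Pool.Agent.U197.GQ.lrA k P).algebraMap_mem'

/-- The extension of an automorphism to the field of fractions. -/
noncomputable def extend (σ : B ≃ₐ[k] B) : FractionRing B ≃ₐ[k] FractionRing B :=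
  IsFractionRing.fieldEquivOfAlgEquiv k (FractionRing B) (FractionRing B) σ

/-- The quotient of the affine variety by the group. -/
noncomputable def quot (ρ : G →* (B ≃ₐ[k] B)) : Scheme.{0} :=
  Spec (CommRingCat.of (invariants ρ))

/-- The structure morphism of the quotient. -/
noncomputable def quotStr (ρ : G →* (B ≃ₐ[k] B)) : quot ρ ⟶ Spec (CommRingCat.of k) :=
  Spec.map (CommRingCat.ofHom (algebraMap k (invariants ρ)))

end affine

section weights

/-- The ideal generated by the monomials of weight at least `d`. -/
def weightIdeal {O : Type} [CommRing O] {n : ℕ} (y : Fin n → O) (w : Fin n → ℕ) (d : ℕ) : Ideal O :=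
  Ideal.span {c | ∃ α : Fin n → ℕ, d ≤ ∑ i, α i * w i ∧ c = ∏ i, y i ^ α i}

variable {k K : Type} [Field k] [Field K] [Algebra k K]

/-- The ideal of `O` which is generated by the values in `O` of the map `δ` on `O`; for
`δ = σ - 1` this is the ideal of the scheme of fixed points. -/
def zeroIdeal (O : Subalgebra k K) (δ : K → K) : Ideal O :=
  Ideal.span {c | ∃ a : O, (c : K) = δ a}

/-- The map `δ` is nondegenerate with respect to the étale coordinates `y i` of `O`, the weights
`w i` and the number `l`. -/
structure Nondegenerate (O : Subalgebra k K) (δ : K → K) {n : ℕ} (y : Fin n → O) (w : Fin n → ℕ)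
    (l : ℕ) : Prop where
  /-- The number `l` is positive. -/
  pos : 0 < l
  /-- The differentials of the coordinates are a basis of the module of differentials. -/
  coordinates : ∃ b : Module.Basis (Fin n) O (Ω[O⁄k]), ∀ i, b i = KaehlerDifferential.D k O (y i)
  /-- All values of `δ` have the order at least `l`. -/
  order : ∀ a c : O, (c : K) = δ a → c ∈ weightIdeal y w l
  /-- The map `δ` raises the order of the coordinates by `l`. -/
  order_coordinate : ∀ i, ∀ c : O, (c : K) = δ (y i) → c ∈ weightIdeal y w (w i + l)
  /-- The coordinates of positive weight vanish at the zeros of `δ`. -/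
  zeros : ∀ i, 0 < w i → y i ∈ (zeroIdeal O δ).radical
  /-- The leading form of `δ` has no zeros outside the zero section: a power of every coordinate of
  positive weight is a combination of leading forms of values of `δ`, up to terms of higher
  weight. -/
  leading : ∀ i, 0 < w i → ∃ N : ℕ, y i ^ N ∈ weightIdeal y w (N * w i + 1) ⊔
    Ideal.span {c | ∃ e, ∃ a ∈ weightIdeal y w e, ∃ b ∈ weightIdeal y w (N * w i - (e + l)),
      ∃ z : O, (z : K) = δ a ∧ c = b * z}

/-- The local ring `O` has the residue field `k`, and the elements `y i` are parameters of `O`: they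
generate the maximal ideal `m` and they are linearly independent modulo the square of `m`. -/
structure Parameters (O : Subalgebra k K) {n : ℕ} (y : Fin n → O) : Prop where
  /-- The ring is local. -/
  isLocalRing : IsLocalRing O
  /-- The residue field is `k`. -/
  rational : ∀ a : O, ∃ c : k, a - algebraMap k O c ∈ IsLocalRing.maximalIdeal O
  /-- The parameters generate the maximal ideal. -/
  generate : Ideal.span (Set.range y) = IsLocalRing.maximalIdeal O
  /-- The parameters are independent. -/
  independent : ∀ c : Fin n → k, ∑ i, c i • y i ∈ IsLocalRing.maximalIdeal O ^ 2 → c = 0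

/-- The isolated zero of `δ` at a rational point with the parameters `y i` is nondegenerate with
respect to the weights `w i` and the number `l`. -/
structure IsolatedNondegenerate (O : Subalgebra k K) (δ : K → K) {n : ℕ} (y : Fin n → O)
    (w : Fin n → ℕ) (l : ℕ) : Prop where
  /-- The number `l` is positive. -/
  pos : 0 < l
  /-- The weights are positive. -/
  weight_pos : ∀ i, 0 < w i
  /-- The elements `y i` are parameters at a rational point. -/
  parameters : Parameters O y
  /-- The order of `δ (y i)` is at least `w i + l`. -/
  order : ∀ i, ∀ c : O, (c : K) = δ (y i) → c ∈ weightIdeal y w (w i + l)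
  /-- The leading forms of the elements `δ (y i)` have no common zeros. -/
  leading : ∀ i, ∃ N : ℕ, y i ^ N ∈ weightIdeal y w (N * w i + 1) ⊔
    Ideal.span {c | ∃ j, ∃ b ∈ weightIdeal y w (N * w i - (w j + l)),
      ∃ z : O, (z : K) = δ (y j) ∧ c = b * z}

end weights

section conversion

open Pool.Agent.U197.SF

variable {k K : Type} [Field k] [Field K] [Algebra k K] {O : Subalgebra k K} {δ : K → K}
  {n : ℕ} {y : Fin n → O} {w : Fin n → ℕ} {l : ℕ}

lemma ndk_of_nondegenerate (hδ : ∀ a ∈ O, δ a ∈ O) (h : Nondegenerate O δ y w l) :
    NDk (fun i => (y i : K)) w δ l O := by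
  refine ndk_of_ring hδ y w (fun a => h.order a _ rfl) (fun i => h.order_coordinate i _ rfl)
    h.zeros (fun i hi => ?_)
  obtain ⟨N, hN⟩ := h.leading i hi
  refine ⟨N, SetLike.le_def.1 (sup_le le_sup_left (le_trans (Ideal.span_mono ?_) le_sup_right)) hN⟩
  rintro c ⟨e, a, ha, b, hb, z, hz, rfl⟩
  refine ⟨e, a, ha, b, hb, ?_⟩
  congr 1
  exact Subtype.ext hz

lemma ndk_of_isolated {τ : K ≃ₐ[k] K} (hτO : ∀ x ∈ O, τ x ∈ O) [IsNoetherianRing O]
    (h : IsolatedNondegenerate O (fun a => τ a - a) y w l) :
    NDk (fun i => (y i : K)) w (fun a => τ a - a) l O := by
  have _ := h.parameters.isLocalRing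
  refine ndk_iso hτO y w h.pos h.weight_pos h.parameters.rational h.parameters.generate
    (fun i => h.order i _ rfl) (fun i => ?_)
  obtain ⟨N, hN⟩ := h.leading i
  refine ⟨N, SetLike.le_def.1 (sup_le le_sup_left (le_trans (Ideal.span_mono ?_) le_sup_right)) hN⟩
  rintro c ⟨j, b, hb, z, hz, rfl⟩
  refine ⟨j, b, hb, ?_⟩
  congr 1
  exact Subtype.ext hz

end conversion

/-- Let `p` be a prime, `k` a perfect field of characteristic `p`, and let `B` be the ring of
functions of a smooth affine variety over `k`. Let `G` be a finite group which acts faithfully on
`B`, such that the inertia group of every closed point `P` has the order `1` or `p`. If for every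
element `g` of order `p` of the inertia group of a closed point `P` the map `g - 1` is nondegenerate
at `P`, or has a nondegenerate isolated zero at `P`, with respect to some coordinates `y`, weights
`w` and a number `l`, then the quotient, which is the spectrum of the ring of invariants, is a
variety and has a resolution of singularities. -/
theorem result (p : ℕ) [Fact p.Prime] (k : Type) [Field k] [PerfectField k] [CharP k p]
    (B : Type) [CommRing B] [IsDomain B] [Algebra k B] [Algebra.Smooth k B]
    (G : Type) [Group G] [Finite G] (ρ : G →* (B ≃ₐ[k] B)) (hfaith : Function.Injective ρ)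
    (hin : ∀ P : Ideal B, P.IsMaximal →
      Nat.card (inertia ρ P) = 1 ∨ Nat.card (inertia ρ P) = p)
    (hloc : ∀ (P : Ideal B) [P.IsMaximal], ∀ g ∈ inertia ρ P, g ≠ 1 → g ^ p = 1 →
      ∃ (n : ℕ) (y : Fin n → localRing k P) (w : Fin n → ℕ) (l : ℕ),
        Nondegenerate (localRing k P) (fun a => extend (ρ g) a - a) y w l ∨
        IsolatedNondegenerate (localRing k P) (fun a => extend (ρ g) a - a) y w l) :
    IsVariety (quotStr ρ) ∧
    ∃ (Y : Scheme.{0}) (π : Y ⟶ quot ρ),
      AlgebraicGeometry.IsIntegral Y ∧ AlgebraicGeometry.IsProper π ∧
      AlgebraicGeometry.Smooth (π ≫ quotStr ρ) ∧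
      ∃ U : (quot ρ).Opens, Dense (U : Set (quot ρ)) ∧ IsIso (π ∣_ U) := by
  have hft : Algebra.FiniteType k (invariants ρ) :=
    Pool.Agent.U197.GQ.finiteType_inv ρ (invariants ρ) fun _ => Iff.rfl
  refine ⟨isVariety_spec, ?_⟩
  refine Pool.Agent.U197.GQ.resA ρ (fun γ h => hfaith ?_) (fun P hP => hin P hP)
    (fun σ hσ1 hσp P hP hσP => ?_) (invariants ρ) fun _ => Iff.rfl
  · rw [map_one]
    exact AlgEquiv.ext h
  · obtain ⟨n, y, w, l, h1⟩ := hloc P σ hσP hσ1 hσp
    have hτO : ∀ a ∈ localRing k P, extend (ρ σ) a ∈ localRing k P :=
      Pool.Agent.U197.GQ.tau_mem_lrA P hσP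
    have hfam := Pool.Agent.U197.GQ.chartFamA (k := k) (P := P) (σ := ρ σ)
    obtain ⟨hs1, hs2, hs3⟩ := hfam.smooth
    rcases h1 with h1 | h1
    · exact ⟨n, fun i => (y i : FractionRing B), w, l, fun i => (y i).2, h1.pos,
        h1.coordinates, ndk_of_nondegenerate
          (fun a ha => Subalgebra.sub_mem _ (hτO a ha) ha) h1⟩
    · have hs1' : Algebra.FormallySmooth k (localRing k P) := hs1
      have hs2' : Algebra.EssFiniteType k (localRing k P) := hs2
      have hs3' : IsNoetherianRing (localRing k P) := hs3
      have hb1 := @Pool.Agent.U197.SF.basis_of_params k (localRing k P) _ _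
        h1.parameters.isLocalRing _ hs1' hs2' n y h1.parameters.rational
        h1.parameters.generate h1.parameters.independent
      exact ⟨n, fun i => (y i : FractionRing B), w, l, fun i => (y i).2, h1.pos, hb1,
        ndk_of_isolated hτO h1⟩

end Pool.Agent.Results.MP_b525bf_ag.WildInertiaAffine
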